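import Pool.Agent.H92.Pd.B1

/-!
# The quantitative Hypothesis H for systems of linear polynomials with constant terms near polynomial values at
# integers with random digits

The additive energy of integers close to the values of a real polynomial at integers with independent random digits is
as small as possible up to powers of the logarithm (`Pool.Agent.H92.Pd.energy_digits`). Method: a Weyl inequality for
polynomials of arbitrary degree `d` at integers with independent random digits (`Pool.Agent.H92.Pd.weyl_scale`): the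
phases are differenced `d - 1` times with respect to blocks of digits at variable positions. The passage from the energy
to the systems is from the starting files (`Pool.Agent.TH935.TF`, `ThinFamilySystems`).
-/

set_option autoImplicit false

namespace Pool.Agent.Results.MP_51e72e_nt.PolynomialDigitConstants

open Finset Filter Topology

/-- For `i < k` and `a < b` let `w i a` be the probability that the digit number `i` in base `b` is equal to `a`; no digit
has a probability larger than `1 - η`. -/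
structure Digits (b k : ℕ) (η : ℝ) (w : ℕ → ℕ → ℝ) : Prop where
  nonneg : ∀ i < k, ∀ a < b, 0 ≤ w i a
  sum : ∀ i < k, ∑ a ∈ range b, w i a = 1
  le : ∀ i < k, ∀ a < b, w i a ≤ 1 - η

/-- The probability of the integer `n < b ^ k`, if its `k` digits in base `b` are independent of each other. -/
noncomputable def prob (b k : ℕ) (w : ℕ → ℕ → ℝ) (n : ℕ) : ℝ := ∏ i ∈ range k, w i (n / b ^ i % b)

/-- `ω_F(p)` for the set `F` of the polynomials `f_i(x) = α i x + β i`: the number of residue classes of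
`n` modulo `p` with `f_1(n) ⋯ f_s(n) ≡ 0 (mod p)`. -/
def omega {s : ℕ} (α β : Fin s → ℤ) (p : ℕ) : ℕ :=
  ((range p).filter (fun n : ℕ => (p : ℤ) ∣ ∏ i, (α i * (n : ℤ) + β i))).card

/-- The product over the primes `p ≤ z` of the factors `(1 - ω_F(p) / p) / (1 - 1 / p) ^ s` of `C_F`. -/
noncomputable def eulerProd {s : ℕ} (α β : Fin s → ℤ) (z : ℕ) : ℝ :=
  ∏ p ∈ (Icc 1 z).filter Nat.Prime, (1 - (omega α β p : ℝ) / p) / (1 - 1 / (p : ℝ)) ^ s

/-- The number of `n` with `y₁ < n ≤ y₂` such that `|α i n + β i|` is prime for every `i`. -/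
def count {s : ℕ} (α β : Fin s → ℤ) (y₁ y₂ : ℕ) : ℕ :=
  ((Ioc y₁ y₂).filter (fun n : ℕ => ∀ i, (α i * (n : ℤ) + β i).natAbs.Prime)).card

/-- The polynomials `α i x + β i` are not constant, no two of them are equal up to sign, and their product
has no fixed prime divisor. -/
def Admissible {s : ℕ} (α β : Fin s → ℤ) : Prop :=
  (∀ i, α i ≠ 0) ∧
  (∀ i j, i ≠ j → ¬ (α i = α j ∧ β i = β j) ∧ ¬ (α i = -α j ∧ β i = -β j)) ∧
  (∀ p : ℕ, p.Prime → ∃ n : ℤ, ¬ (p : ℤ) ∣ ∏ i, (α i * n + β i))

/-- For all slopes `|α i| ≤ log ^ D N` for which the system `F` of the `α i x + β i` is admissible, the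
product `C_F` converges to a positive number `c`, and for all `y₁ < y₂ ≤ B N` with
`y₂ - y₁ ≥ N / log ^ C N` the number of `n` with `y₁ < n ≤ y₂` such that all `|α i n + β i|` are prime agrees
with `c (y₂ - y₁) / log ^ s N` up to a relative error of at most `ε`. -/
def Holds (ε : ℝ) (C B D N : ℕ) {s : ℕ} (β : Fin s → ℤ) : Prop :=
  ∀ α : Fin s → ℤ, (∀ i, |(α i : ℝ)| ≤ Real.log N ^ D) → Admissible α β →
    ∃ c : ℝ, 0 < c ∧ Tendsto (eulerProd α β) atTop (𝓝 c) ∧
      ∀ y₁ y₂ : ℕ, y₁ < y₂ → y₂ ≤ B * N → (N : ℝ) / Real.log N ^ C ≤ (y₂ : ℝ) - y₁ →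
        |(count α β y₁ y₂ : ℝ) - c * ((y₂ : ℝ) - y₁) / Real.log N ^ s| ≤
          ε * (c * ((y₂ : ℝ) - y₁) / Real.log N ^ s)

open Classical in
/-- Let `s ≥ 1`, bases `b_i ≥ 2` and degrees `d_i ≥ 2` (`i < s`), `A`, `B`, `C`, `D`, `U`, `W`, `η > 0` and `ε > 0` be
fixed. Let `N` be large, and let the numbers `k_i` of digits satisfy `N ≤ b_i ^ (d_i k_i) log ^ A N`. Let
`n_i < b_i ^ k_i` be independent random integers with independent digits in base `b_i`, no digit having a probability
larger than `1 - η` (for example, the digits lie in arbitrary sets of at least two digits, which depend on the place, with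
equal probabilities). Let `F_i` be polynomials with real coefficients of degrees of at most `d_i`, whose coefficients of
`X ^ d_i` have absolute values between `1 / log ^ A N` and `log ^ A N`, and with `|F_i(n)| ≤ B N` for all possible
`n = n_i`; the other coefficients are arbitrary.

Then, with a probability of at least `1 - 1 / log ^ U N`, ALL the vectors `β` of integers with
`|β_i - F_i(n_i)| ≤ log ^ W N` have the following property: for all slopes `|α_i| ≤ log ^ D N` for which the system `F` of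
the linear polynomials `α_i x + β_i` is admissible, and for all windows `y₁ < n ≤ y₂` with `y₂ ≤ B N` and
`y₂ - y₁ ≥ N / log ^ C N`, the number of the `n` in the window for which all `|α_i n + β_i|` are prime is
`(1 + O(ε)) C_F (y₂ - y₁) / log ^ s N`. -/
theorem result (s A B C D U W : ℕ) (hs : 1 ≤ s) (b d : Fin s → ℕ) (hb : ∀ i, 2 ≤ b i) (hd : ∀ i, 2 ≤ d i)
    (η ε : ℝ) (hη : 0 < η) (hε : 0 < ε) :
    ∃ N₀ : ℕ, ∀ N : ℕ, N₀ ≤ N → ∀ k : Fin s → ℕ, (∀ i, (N : ℝ) ≤ Real.log N ^ A * ((b i : ℝ) ^ k i) ^ d i) →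
      ∀ w : Fin s → ℕ → ℕ → ℝ, (∀ i, Digits (b i) (k i) η (w i)) →
      ∀ F : Fin s → Polynomial ℝ, (∀ i, (F i).natDegree ≤ d i ∧ 1 / Real.log N ^ A ≤ |(F i).coeff (d i)| ∧
        |(F i).coeff (d i)| ≤ Real.log N ^ A) →
      (∀ i, ∀ n < b i ^ k i, prob (b i) (k i) (w i) n ≠ 0 → |(F i).eval (n : ℝ)| ≤ B * N) →
        ∑ n ∈ Fintype.piFinset (fun i => range (b i ^ k i)),
          (if ∀ β : Fin s → ℤ, (∀ i, |(β i : ℝ) - (F i).eval (n i : ℝ)| ≤ Real.log N ^ W) → Holds ε C B D N β then 0
            else ∏ i, prob (b i) (k i) (w i) (n i)) ≤ 1 / Real.log N ^ U := by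
  obtain ⟨n1, h1⟩ := Pool.Agent.H92.Pd.systems hs b (fun i => d i - 1) hb (fun i => by have := hd i; omega) A B C D U W η hη ε hε
  choose n2 h2 using fun i => Pool.Agent.H92.Pd.k_pos (b i) (d i) A
  have hd1 : ∀ i, d i - 1 + 1 = d i := fun i => by have := hd i; omega
  simp only [hd1] at h1
  obtain ⟨Nt, hNt⟩ : ∃ Nt, Nt = ∑ i, n2 i := ⟨_, rfl⟩
  have hNi : ∀ i, n2 i ≤ Nt := fun i => by rw [hNt]; exact single_le_sum (f := n2) (fun _ _ => Nat.zero_le _) (mem_univ i)
  refine ⟨n1 + Nt, fun N hN k hNk w hw F hF hFB => ?_⟩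
  have hk : ∀ i, 1 ≤ k i := fun i => h2 i N (by have := hNi i; omega) (k i) (hNk i)
  have hw' : ∀ i, Pool.Agent.H92.Pd.Digs (b i) (k i) η (w i) := fun i => ⟨(hw i).nonneg, (hw i).sum, (hw i).le⟩
  have hP : ∀ i n, Pool.Agent.TH872.Sq.P (b i) (Pool.Agent.H92.Pd.ext (b i) (k i) (w i)) 0 (k i) n = prob (b i) (k i) (w i) n :=
    fun i n => Pool.Agent.H92.Pd.P_ext (hb i) (w i) n
  have h3 := h1 N (by omega) k (fun i => by
    rw [mul_comm (d i) (k i), pow_mul]
    exact hNk i) (fun i => Pool.Agent.H92.Pd.ext (b i) (k i) (w i))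
    (fun i => Pool.Agent.H92.Pd.dig_ext (hb i) (hk i) (hw' i)) F (fun i => (hF i).1) (fun i => (hF i).2.1) (fun i => (hF i).2.2) (by
    intro i n hn hne
    rw [hP] at hne
    exact hFB i n hn hne)
  simp only [hP] at h3
  exact h3

end Pool.Agent.Results.MP_51e72e_nt.PolynomialDigitConstants
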